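import Pool.Agent.Lib_helper40.MC.T10b.Q
import Pool.Agent.Lib_helper40.MC.T10b.T

/-!
# N = 10, t = -1: all checks
-/

set_option autoImplicit false
set_option maxRecDepth 100000

namespace Pool.Agent.MC10b

open Pool.Agent.KC72 Pool.Agent.MC

theorem c10b_0 : NumX c10b c10b_t c10b_ll.length := by decide +kernel

theorem c10b_om : xm c10b.kb c10b.ko (c10b.m * c10b.N) c10b.Om = true := by decide +kernel

theorem c10b_b : cB c10b = true := by decide +kernel

theorem c10b_r0 : blk (cR c10b) c10b.rels 60 0 = true := by decide +kernel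

theorem c10b_r1 : blk (cR c10b) c10b.rels 60 1 = true := by decide +kernel

theorem c10b_r2 : blk (cR c10b) c10b.rels 60 2 = true := by decide +kernel

theorem c10b_r3 : blk (cR c10b) c10b.rels 60 3 = true := by decide +kernel

theorem c10b_r' : ∀ k < 4, blk (cR c10b) c10b.rels 60 k = true
  | 0, _ => c10b_r0
  | 1, _ => c10b_r1
  | 2, _ => c10b_r2
  | 3, _ => c10b_r3
  | k + 4, h => absurd h (by omega)

theorem c10b_g : allI (fun c g => cG c10b.DG c10b_t.B c10b_t.MA c10b_t.P2 c10b_t.MB c g) c10b.G 0 = true := by decide +kernel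

theorem c10b_g' : c10b.toCert.chk3' = true := by decide +kernel

theorem c10b_k1 : (c10b.cls.take c10b.m).map (prF c10b_t.p c10b.n c10b.r) = c10b_t.PR := by decide +kernel

theorem c10b_k2 : (c10b.cls.take c10b.m).map (pkw (Int.ofNat c10b_t.Z) (Int.ofNat (Nat.pow c10b_t.Z c10b.n)) c10b.r) = c10b_t.PM := by decide +kernel

theorem c10b_k3 : c10b_t.P2.map (fun x => pmb (Int.ofNat c10b_t.B) x.1 x.2 (c10b.cls.take c10b.m)) = c10b_t.MB := by decide +kernel

theorem c10b_e : c10b.cls.all (fun e => bdE c10b_t.MA c10b.n e.1.2 && bdE c10b_t.MA c10b.n e.2.2) = true := by decide +kernel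

theorem c10b_xq : c10b_t.XQ.all (fun X => X.all (xm c10b_t.a c10b_t.d c10b_t.S)) = true := by decide +kernel

theorem c10b_xt : c10b_t.XT.all (fun X => X.all (xm c10b_t.a' c10b_t.d' c10b_t.K)) = true := by decide +kernel

theorem c10b_d0_0 : blk (cD c10b c10b_v0) c10b.Q 40 0 = true := by decide +kernel

theorem c10b_d0_1 : blk (cD c10b c10b_v0) c10b.Q 40 1 = true := by decide +kernel

theorem c10b_d0_2 : blk (cD c10b c10b_v0) c10b.Q 40 2 = true := by decide +kernel

theorem c10b_d0_3 : blk (cD c10b c10b_v0) c10b.Q 40 3 = true := by decide +kernel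

theorem c10b_d0_4 : blk (cD c10b c10b_v0) c10b.Q 40 4 = true := by decide +kernel

theorem c10b_d0_' : ∀ k < 5, blk (cD c10b c10b_v0) c10b.Q 40 k = true
  | 0, _ => c10b_d0_0
  | 1, _ => c10b_d0_1
  | 2, _ => c10b_d0_2
  | 3, _ => c10b_d0_3
  | 4, _ => c10b_d0_4
  | k + 5, h => absurd h (by omega)

theorem c10b_x : allI (fun s L => cL c10b c10b_t (c10b_vl.getD s []) s L) c10b_ll 0 = true := by decide +kernel

/-- all checks -/
theorem c10b_ok : ROkX c10b c10b_ll :=
  rOkX_of (A := c10b_t) (VL := c10b_vl) (l4 := 60) (n4 := 4) (lQ := 40) (nQ := 5) (lT := 40) (nT := 6) rfl c10b_0 c10b_om c10b_b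
    (by decide) (by decide +kernel) c10b_r' c10b_g c10b_g' ⟨c10b_k1, c10b_k2, c10b_k3⟩ c10b_e c10b_xq c10b_xt (by decide) (by decide +kernel) c10b_q'
    (by decide) (by decide +kernel) c10b_t' c10b_x
    (List.forall_mem_cons.2 ⟨c10b_d0_', (List.forall_mem_nil _)⟩)

end Pool.Agent.MC10b
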