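import Pool.Agent.Lib_helper40.MC.P2
import Pool.Agent.Lib_helper40.MC.T10b.Ok
import Pool.Agent.Lib_helper54.FAM.C10b

/-!
# The classes of the certificate `c10b` are those of the list `c10b_cls`
-/

set_option autoImplicit false
set_option maxRecDepth 100000

namespace Pool.Agent.MC10b

open Pool.Agent.MC

/-- positions -/
def ia : List ℕ := [146, 139, 137, 13, 15, 10, 77, 61, 57, 76, 78, 62, 82, 50, 35, 114, 49, 105, 48, 175, 131,
  86, 133, 30, 111, 53, 103, 145, 56, 29, 109, 9, 79, 220, 138, 215, 222, 14, 208, 181, 11, 12,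
  193, 59, 191, 195, 202, 101, 199, 58, 60, 107, 124, 115, 55, 205, 27, 189, 127, 209, 116, 106,
  203, 148, 144, 223, 171, 178, 173, 176, 85, 90, 117, 167, 210, 69, 162, 197, 88, 87, 96, 89,
  157, 34, 212, 200, 5, 174, 36, 32, 112, 119, 132, 219, 43, 118, 156, 24, 37, 33, 221, 213,
  218, 187, 185, 183, 3, 204, 113, 143, 71, 217, 1, 17, 8, 19, 51, 67, 74, 165, 152, 182, 63,
  25, 153, 104, 41, 129, 149, 177, 158, 166, 22, 125, 108, 23, 68, 123, 72, 147, 120, 54, 190,
  141, 135, 81, 110, 39, 46, 66, 159, 92, 179, 99, 168, 169, 20, 224, 122, 211, 94, 194, 192,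
  206, 18, 184, 31, 0, 4, 201, 128, 130, 6, 2, 121, 136, 180, 7, 38, 151, 44, 102, 126, 150,
  134, 214, 42, 70, 154, 170, 26, 75, 16, 52, 21, 40, 47, 91, 155, 95, 93, 64, 80, 83, 140, 98,
  28, 45, 73, 172, 100, 97, 142, 84, 160, 65, 188, 186, 161, 163, 164, 198, 196, 216, 207]

/-- positions -/
def ib : List ℕ := [167, 112, 173, 106, 168, 86, 172, 177, 114, 31, 5, 40, 41, 3, 37, 4, 192, 113, 164, 115, 156,
  194, 132, 135, 97, 123, 190, 56, 206, 29, 23, 166, 89, 99, 83, 14, 88, 98, 178, 147, 195, 126,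
  186, 94, 180, 207, 148, 196, 18, 16, 13, 116, 193, 25, 141, 54, 28, 8, 49, 43, 50, 7, 11, 122,
  201, 215, 149, 117, 136, 75, 187, 110, 138, 208, 118, 191, 9, 6, 10, 32, 202, 145, 12, 203,
  213, 70, 21, 79, 78, 81, 71, 197, 151, 200, 160, 199, 80, 211, 205, 153, 210, 47, 181, 26,
  125, 17, 61, 51, 134, 30, 146, 24, 90, 108, 15, 53, 60, 72, 95, 91, 140, 174, 158, 137, 52,
  133, 182, 58, 170, 127, 171, 20, 92, 22, 184, 144, 175, 2, 34, 1, 204, 143, 212, 109, 64, 27,
  0, 139, 63, 128, 183, 179, 120, 124, 188, 198, 96, 82, 130, 150, 214, 218, 76, 219, 220, 119,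
  131, 73, 154, 155, 189, 66, 209, 68, 87, 19, 69, 129, 67, 152, 176, 39, 121, 105, 165, 104,
  217, 103, 216, 57, 142, 44, 162, 42, 161, 45, 222, 77, 221, 48, 85, 169, 46, 62, 107, 55, 163,
  224, 38, 59, 74, 159, 84, 101, 185, 35, 223, 111, 102, 93, 33, 100, 36, 65, 157]

/-- **the same classes** -/
theorem same : sameC c10b.cls N10C.c10b_cls = true :=
  sameC_of_pos (a := ia) (b := ib) (by decide +kernel) (by decide +kernel)

end Pool.Agent.MC10b
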