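import Pool.Agent.Lib_helper40.MC.T10b.Dat

/-!
# N = 10, t = -1: the coordinates
-/

set_option autoImplicit false
set_option maxRecDepth 100000

namespace Pool.Agent.MC10b

open Pool.Agent.KC72 Pool.Agent.MC

theorem c10b_q0 : blk (cQ c10b c10b_t) c10b.Q 40 0 = true := by decide +kernel

theorem c10b_q1 : blk (cQ c10b c10b_t) c10b.Q 40 1 = true := by decide +kernel

theorem c10b_q2 : blk (cQ c10b c10b_t) c10b.Q 40 2 = true := by decide +kernel

theorem c10b_q3 : blk (cQ c10b c10b_t) c10b.Q 40 3 = true := by decide +kernel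

theorem c10b_q4 : blk (cQ c10b c10b_t) c10b.Q 40 4 = true := by decide +kernel

theorem c10b_q' : ∀ k < 5, blk (cQ c10b c10b_t) c10b.Q 40 k = true
  | 0, _ => c10b_q0
  | 1, _ => c10b_q1
  | 2, _ => c10b_q2
  | 3, _ => c10b_q3
  | 4, _ => c10b_q4
  | k + 5, h => absurd h (by omega)

end Pool.Agent.MC10b
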